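import Mathlib

set_option autoImplicit false

namespace Pool.Agent.Results.MP_383f58_co.Disproof

open Finset

/-- The clique complex of `G` is a `d`-dimensional pseudomanifold: it is pure of dimension `d`
and every `(d-1)`-dimensional face lies in exactly two facets. -/
def FlagPseudomanifold {n : ℕ} (G : SimpleGraph (Fin n)) (d : ℕ) : Prop :=
  (∀ s : Finset (Fin n), G.IsClique s → ∃ t : Finset (Fin n), s ⊆ t ∧ G.IsNClique (d + 1) t) ∧
  ∀ s : Finset (Fin n), G.IsNClique d s →
    {t : Finset (Fin n) | s ⊆ t ∧ G.IsNClique (d + 1) t}.ncard = 2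

/-- `f_i` of the clique complex of `G`. -/
noncomputable def faceNum {n : ℕ} (G : SimpleGraph (Fin n)) (i : ℕ) : ℕ :=
  {s : Finset (Fin n) | G.IsNClique (i + 1) s}.ncard

/-- The 1-skeleton of `J_m(n)`: vertex `v` is number `v / m` on cycle number `v % m`, which has
`(n - v % m + m - 1) / m` vertices; vertices on different cycles are adjacent. -/
def joinCycles (m n : ℕ) : SimpleGraph (Fin n) :=
  SimpleGraph.fromRel (fun v w => v.val % m ≠ w.val % m ∨
    (v.val / m + 1) % ((n - v.val % m + m - 1) / m) = w.val / m)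

def adjB (v w : Fin 26) : Bool :=
  v.val % 2 != w.val % 2 || [1, 3, 4, 9, 10, 12].contains ((v.val / 2 + 13 - w.val / 2) % 13)

def G0 : SimpleGraph (Fin 26) where
  Adj v w := adjB v w = true
  symm := ⟨by decide +kernel⟩
  loopless := ⟨by decide +kernel⟩

instance : DecidableRel G0.Adj := fun v w => inferInstanceAs (Decidable (adjB v w = true))

instance (m n : ℕ) : DecidableRel (joinCycles m n).Adj := fun v w => by
  unfold joinCycles
  rw [SimpleGraph.fromRel_adj]
  infer_instance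

def part (i : ℕ) (s : Finset (Fin 26)) : Finset (Fin 26) := s.filter (fun v => v.val % 2 = i)

lemma cross : ∀ v w : Fin 26, v.val % 2 ≠ w.val % 2 → G0.Adj v w := by decide +kernel

lemma noK4 : ∀ a b : Fin 26, a.val % 2 = b.val % 2 ∧ G0.Adj a b →
    ∀ c : Fin 26, a.val % 2 = c.val % 2 ∧ G0.Adj a c ∧ G0.Adj b c →
    ∀ d : Fin 26, a.val % 2 = d.val % 2 ∧ G0.Adj a d ∧ G0.Adj b d → ¬ G0.Adj c d := by
  decide +kernel

lemma part_le (s : Finset (Fin 26)) (hs : G0.IsClique s) (i : ℕ) : (part i s).card ≤ 3 := by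
  by_contra h
  obtain ⟨t, ht, hc⟩ := exists_subset_card_eq (show 4 ≤ (part i s).card by omega)
  obtain ⟨a, b, c, d, hab, hac, had, hbc, hbd, hcd, rfl⟩ := card_eq_four.mp hc
  have ha := mem_filter.mp (ht (show a ∈ _ by simp))
  have hb := mem_filter.mp (ht (show b ∈ _ by simp))
  have hc := mem_filter.mp (ht (show c ∈ _ by simp))
  have hd := mem_filter.mp (ht (show d ∈ _ by simp))
  exact noK4 a b ⟨by omega, hs ha.1 hb.1 hab⟩ c ⟨by omega, hs ha.1 hc.1 hac, hs hb.1 hc.1 hbc⟩ d
    ⟨by omega, hs ha.1 hd.1 had, hs hb.1 hd.1 hbd⟩ (hs hc.1 hd.1 hcd)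

lemma part_add (s : Finset (Fin 26)) : (part 0 s).card + (part 1 s).card = s.card := by
  have := card_filter_add_card_filter_not (s := s) (fun v => v.val % 2 = 0)
  rw [← this]
  unfold part
  congr 2
  ext v
  simp

lemma common : ∀ a b : Fin 26, a.val % 2 = b.val % 2 ∧ G0.Adj a b →
    (univ.filter (fun v : Fin 26 => v.val % 2 = a.val % 2 ∧ G0.Adj v a ∧ G0.Adj v b)).card = 2 := by
  decide +kernel

lemma common1 : ∀ a : Fin 26, ∃ v : Fin 26, v.val % 2 = a.val % 2 ∧ G0.Adj v a := by
  decide +kernel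

lemma insert_clique (s : Finset (Fin 26)) (hs : G0.IsClique s) (v : Fin 26)
    (hv : ∀ w ∈ part (v.val % 2) s, G0.Adj v w) :
    v ∉ s ∧ G0.IsClique (insert v s : Finset (Fin 26)) := by
  have hall : ∀ w ∈ s, G0.Adj v w := by
    intro w hw
    by_cases h : w.val % 2 = v.val % 2
    · exact hv w (mem_filter.mpr ⟨hw, h⟩)
    · exact cross v w (fun h' => h h'.symm)
  refine ⟨fun h => G0.irrefl (hall v h), ?_⟩
  rw [coe_insert]
  exact hs.insert (fun w hw _ => hall w hw)

lemma extend (s : Finset (Fin 26)) (hs : G0.IsClique s) (hc : s.card ≤ 5) :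
    ∃ v, v ∉ s ∧ G0.IsClique (insert v s : Finset (Fin 26)) := by
  obtain ⟨i, hi, hi2⟩ : ∃ i, i < 2 ∧ (part i s).card ≤ 2 := by
    have := part_add s
    by_cases h : (part 0 s).card ≤ 2
    · exact ⟨0, by omega, h⟩
    · exact ⟨1, by omega, by omega⟩
  have h3 : (part i s).card = 0 ∨ (part i s).card = 1 ∨ (part i s).card = 2 := by omega
  rcases h3 with h | h | h
  · refine ⟨⟨i, by omega⟩, insert_clique s hs _ ?_⟩
    rw [Nat.mod_eq_of_lt hi, card_eq_zero.mp h]
    simp
  · obtain ⟨a, ha⟩ := card_eq_one.mp h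
    obtain ⟨v, hv1, hv2⟩ := common1 a
    have hai := (mem_filter.mp (show a ∈ part i s by simp [ha])).2
    refine ⟨v, insert_clique s hs _ ?_⟩
    rw [hv1, hai, ha]
    simpa using hv2
  · obtain ⟨a, b, hab, he⟩ := card_eq_two.mp h
    have ha := mem_filter.mp (show a ∈ part i s by simp [he])
    have hb := mem_filter.mp (show b ∈ part i s by simp [he])
    have hc := common a b ⟨by omega, hs ha.1 hb.1 hab⟩
    obtain ⟨v, hv⟩ := card_pos.mp (show 0 < _ by rw [hc]; norm_num)
    have hv' := (mem_filter.mp hv).2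
    refine ⟨v, insert_clique s hs _ ?_⟩
    rw [hv'.1, ha.2, he]
    simp [hv'.2.1, hv'.2.2]

lemma pure (k : ℕ) : ∀ s : Finset (Fin 26), G0.IsClique s → s.card + k = 6 →
    ∃ t : Finset (Fin 26), s ⊆ t ∧ G0.IsNClique 6 t := by
  induction k with
  | zero => exact fun s hs hc => ⟨s, Subset.refl _, hs, hc⟩
  | succ k ih =>
    intro s hs hc
    obtain ⟨v, hv, hv'⟩ := extend s hs (by omega)
    obtain ⟨t, ht, ht'⟩ := ih _ hv' (by rw [card_insert_of_notMem hv]; omega)
    exact ⟨t, (subset_insert _ _).trans ht, ht'⟩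

lemma ridge (s : Finset (Fin 26)) (hs : G0.IsNClique 5 s) :
    {t : Finset (Fin 26) | s ⊆ t ∧ G0.IsNClique 6 t}.ncard = 2 := by
  obtain ⟨i, hi, hi2, hi3⟩ : ∃ i, i < 2 ∧ (part i s).card = 2 ∧ (part (1 - i) s).card = 3 := by
    have h1 := part_add s
    have h2 := part_le s hs.1 0
    have h3 := part_le s hs.1 1
    have h4 := hs.2
    by_cases h : (part 0 s).card = 2
    · exact ⟨0, by omega, h, by simp only [Nat.sub_zero]; omega⟩
    · exact ⟨1, by omega, by omega, by simp only [Nat.sub_self]; omega⟩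
  obtain ⟨a, b, hab, he⟩ := card_eq_two.mp hi2
  have ha := mem_filter.mp (show a ∈ part i s by simp [he])
  have hb := mem_filter.mp (show b ∈ part i s by simp [he])
  have hc := common a b ⟨by omega, hs.1 ha.1 hb.1 hab⟩
  set C := univ.filter (fun v : Fin 26 => v.val % 2 = a.val % 2 ∧ G0.Adj v a ∧ G0.Adj v b) with hC
  have hCs : ∀ v ∈ C, v ∉ s ∧ G0.IsClique (insert v s : Finset (Fin 26)) := by
    intro v hv
    have hv' := (mem_filter.mp hv).2
    apply insert_clique s hs.1
    rw [hv'.1, ha.2, he]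
    simp [hv'.2.1, hv'.2.2]
  have hset : {t : Finset (Fin 26) | s ⊆ t ∧ G0.IsNClique 6 t} =
      (C.image (fun v => insert v s) : Finset (Finset (Fin 26))) := by
    ext t
    simp only [Set.mem_ofPred_eq, coe_image, Set.mem_image, mem_coe]
    constructor
    · rintro ⟨h1, h2⟩
      obtain ⟨v, hv, rfl⟩ := exists_eq_insert_iff.mpr ⟨h1, by rw [hs.2, h2.2]⟩
      refine ⟨v, mem_filter.mpr ⟨mem_univ _, ?_, ?_, ?_⟩, rfl⟩
      · by_contra hne
        have h3 := part_le _ h2.1 (1 - i)
        have h4 : part (1 - i) (insert v s) = insert v (part (1 - i) s) := by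
          unfold part
          rw [filter_insert, if_pos (by omega)]
        have hv' : v ∉ part (1 - i) s := fun h => hv (mem_filter.mp h).1
        rw [h4, card_insert_of_notMem hv'] at h3
        omega
      · exact h2.1 (by simp) (by simp [ha.1]) (fun h => hv (h ▸ ha.1))
      · exact h2.1 (by simp) (by simp [hb.1]) (fun h => hv (h ▸ hb.1))
    · rintro ⟨v, hv, rfl⟩
      exact ⟨subset_insert _ _, (hCs v hv).2, by rw [card_insert_of_notMem (hCs v hv).1, hs.2]⟩
  rw [hset, Set.ncard_coe_finset, card_image_of_injOn, hc]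
  intro v hv w hw h
  have : v ∈ insert w s := by
    simp only at h
    rw [← h]
    simp
  rcases mem_insert.mp this with h' | h'
  · exact h'
  · exact absurd h' (hCs v hv).1

def tri (i : ℕ) : Finset (Finset (Fin 26)) :=
  (powersetCard 3 (part i univ)).filter (fun s => ∀ a ∈ s, ∀ b ∈ s, a ≠ b → G0.Adj a b)

lemma tri_card0 : (tri 0).card = 26 := by decide +kernel

lemma tri_card1 : (tri 1).card = 26 := by decide +kernel

lemma mem_tri {i : ℕ} {s : Finset (Fin 26)} (h : s ∈ tri i) :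
    (∀ v ∈ s, v.val % 2 = i) ∧ s.card = 3 ∧ ∀ a ∈ s, ∀ b ∈ s, a ≠ b → G0.Adj a b := by
  obtain ⟨h1, h2⟩ := mem_filter.mp h
  rw [mem_powersetCard] at h1
  exact ⟨fun v hv => (mem_filter.mp (h1.1 hv)).2, h1.2, h2⟩

lemma G0_ge : 676 ≤ faceNum G0 5 := by
  have h1 : ((tri 0 ×ˢ tri 1 : Finset _) : Set (Finset (Fin 26) × Finset (Fin 26))).ncard = 676 := by
    rw [Set.ncard_coe_finset, card_product, tri_card0, tri_card1]
  rw [← h1]
  apply Set.ncard_le_ncard_of_injOn (fun p => p.1 ∪ p.2)
  · rintro ⟨A, B⟩ hp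
    rw [mem_coe, mem_product] at hp
    obtain ⟨a1, a2, a3⟩ := mem_tri hp.1
    obtain ⟨b1, b2, b3⟩ := mem_tri hp.2
    refine ⟨?_, ?_⟩
    · intro v hv w hw hvw
      rw [mem_coe, mem_union] at hv hw
      rcases hv with hv | hv <;> rcases hw with hw | hw
      · exact a3 v hv w hw hvw
      · exact cross v w (by rw [a1 v hv, b1 w hw]; omega)
      · exact cross v w (by rw [b1 v hv, a1 w hw]; omega)
      · exact b3 v hv w hw hvw
    · rw [card_union_of_disjoint, a2, b2]
      rw [disjoint_left]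
      intro v hv hw
      have := a1 v hv
      have := b1 v hw
      omega
  · rintro ⟨A, B⟩ hp ⟨A', B'⟩ hq h
    rw [mem_coe, mem_product] at hp hq
    have a1 := (mem_tri hp.1).1
    have b1 := (mem_tri hp.2).1
    have a2 := (mem_tri hq.1).1
    have b2 := (mem_tri hq.2).1
    simp only at h a1 b1 a2 b2
    have key : ∀ v, v ∈ A ∨ v ∈ B ↔ v ∈ A' ∨ v ∈ B' := fun v => by
      rw [← mem_union, ← mem_union, h]
    refine Prod.ext ?_ ?_
    · ext v
      refine ⟨fun hv => ((key v).mp (Or.inl hv)).resolve_right (fun h' => ?_),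
        fun hv => ((key v).mpr (Or.inl hv)).resolve_right (fun h' => ?_)⟩
      · have := a1 v hv; have := b2 v h'; omega
      · have := a2 v hv; have := b1 v h'; omega
    · ext v
      refine ⟨fun hv => ((key v).mp (Or.inr hv)).resolve_left (fun h' => ?_),
        fun hv => ((key v).mpr (Or.inr hv)).resolve_left (fun h' => ?_)⟩
      · have := b1 v hv; have := a2 v h'; omega
      · have := b2 v hv; have := a1 v h'; omega

def part3 (i : ℕ) (s : Finset (Fin 26)) : Finset (Fin 26) := s.filter (fun v => v.val % 3 = i)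

lemma noK3 : ∀ a b : Fin 26, a.val % 3 = b.val % 3 ∧ (joinCycles 3 26).Adj a b →
    ∀ c : Fin 26, a.val % 3 = c.val % 3 ∧ (joinCycles 3 26).Adj a c →
      ¬ (joinCycles 3 26).Adj b c := by
  decide +kernel

lemma part3_le (s : Finset (Fin 26)) (hs : (joinCycles 3 26).IsClique s) (i : ℕ) :
    (part3 i s).card ≤ 2 := by
  by_contra h
  obtain ⟨t, ht, hc⟩ := exists_subset_card_eq (show 3 ≤ (part3 i s).card by omega)
  obtain ⟨a, b, c, hab, hac, hbc, rfl⟩ := card_eq_three.mp hc
  have ha := mem_filter.mp (ht (show a ∈ _ by simp))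
  have hb := mem_filter.mp (ht (show b ∈ _ by simp))
  have hc := mem_filter.mp (ht (show c ∈ _ by simp))
  exact noK3 a b ⟨by omega, hs ha.1 hb.1 hab⟩ c ⟨by omega, hs ha.1 hc.1 hac⟩ (hs hb.1 hc.1 hbc)

def edg (i : ℕ) : Finset (Finset (Fin 26)) :=
  (powersetCard 2 (part3 i univ)).filter
    (fun s => ∀ a ∈ s, ∀ b ∈ s, a ≠ b → (joinCycles 3 26).Adj a b)

lemma edg_card : (edg 0).card = 9 ∧ (edg 1).card = 9 ∧ (edg 2).card = 8 := by decide +kernel

lemma part3_union (s : Finset (Fin 26)) : part3 0 s ∪ part3 1 s ∪ part3 2 s = s := by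
  ext v
  simp only [part3, mem_union, mem_filter]
  constructor
  · tauto
  · intro h
    have : v.val % 3 = 0 ∨ v.val % 3 = 1 ∨ v.val % 3 = 2 := by omega
    tauto

lemma J_le : faceNum (joinCycles 3 26) 5 ≤ 648 := by
  have h1 : ((edg 0 ×ˢ edg 1 ×ˢ edg 2 : Finset _) :
      Set (Finset (Fin 26) × Finset (Fin 26) × Finset (Fin 26))).ncard = 648 := by
    rw [Set.ncard_coe_finset, card_product, card_product, edg_card.1, edg_card.2.1, edg_card.2.2]
  rw [← h1]
  apply Set.ncard_le_ncard_of_injOn (fun s => (part3 0 s, part3 1 s, part3 2 s))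
  · intro s hs
    have a0 := part3_le s hs.1 0
    have a1 := part3_le s hs.1 1
    have a2 := part3_le s hs.1 2
    have h2 := card_union_le (part3 0 s ∪ part3 1 s) (part3 2 s)
    have h3 := card_union_le (part3 0 s) (part3 1 s)
    rw [part3_union, hs.2] at h2
    have key : ∀ i, (part3 i s).card = 2 → part3 i s ∈ edg i := by
      intro i hi
      refine mem_filter.mpr ⟨mem_powersetCard.mpr ⟨filter_subset_filter _ (subset_univ _), hi⟩, ?_⟩
      intro a ha b hb hab
      exact hs.1 (mem_filter.mp ha).1 (mem_filter.mp hb).1 hab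
    rw [mem_coe, mem_product, mem_product]
    exact ⟨key 0 (by omega), key 1 (by omega), key 2 (by omega)⟩
  · intro s _ t _ h
    simp only [Prod.mk.injEq] at h
    rw [← part3_union s, ← part3_union t, h.1, h.2.1, h.2.2]

theorem result :
    ∃ m n : ℕ, 1 ≤ m ∧ 4 * m ≤ n ∧ ∃ G : SimpleGraph (Fin n), FlagPseudomanifold G (2 * m - 1) ∧
      faceNum (joinCycles m n) (2 * m - 1) < faceNum G (2 * m - 1) := by
  refine ⟨3, 26, by norm_num, by norm_num, G0, ⟨fun s hs => ?_, ridge⟩, ?_⟩
  · have h1 := part_add s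
    have h2 := part_le s hs 0
    have h3 := part_le s hs 1
    exact pure (6 - s.card) s hs (by omega)
  · have h1 := G0_ge
    have h2 := J_le
    change faceNum (joinCycles 3 26) 5 < faceNum G0 5
    omega

end Pool.Agent.Results.MP_383f58_co.Disproof
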